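import Mathlib
import Pool.Agent.X238.Dft.Comp

set_option autoImplicit false

/-!
# The infinite (palindromic) defect of a finite word is computable

The key step (`ext_iff` in `Pool.Agent.X238.Dft.Inf`): if a word `w` has right prolongations of
arbitrary length with defect at most `k`, then it has an eventually periodic one, and this is
visible on a finite certificate: a word `X = a₀ u v` with prefix `w` and defect at most `k`, where
`u v` and `v` are palindromes, `v` occurs in `X` only as the prefix and as the suffix of `u v`, and
the last letter of `a₀` (if any) differs from the last letter of `u`. Then `a₀ uⁿ v` has the defect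
of `X` for all `n`.

To find the certificate take an infinite prolongation `z` with defect at most `k`; from some length
`N` on every prefix of `z` brings a new palindrome. Let `c` be the first position at which a
palindrome of length `> N` starts. If two such palindromes start there, take two consecutive ones as
`v` and `u v`. Otherwise take the unique one as `v`, a long prefix `p` of `z`, and reflect `p` in
the centre of its new palindromic suffix until the reflected word starts at `c`.
-/

namespace Pool.Agent.Results.MP_a1720d_lc.InfiniteDefectComputable

open Pool.Agent.X238.Dft

/-- The infinite defect of finite words is a computable function, and the set of pairs `(w, k)`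
such that the infinite defect of `w` is at most `k` is decidable. -/
theorem result :
    (∃ f : List ℕ → ℕ, Computable f ∧ ∀ w, w ≠ [] → infDefect w = f w) ∧
    ComputablePred (fun p : List ℕ × ℕ => infDefect p.1 ≤ p.2) := by
  obtain ⟨f, hf, hfw⟩ := infDefect_computable
  refine ⟨⟨f, hf, hfw⟩, ?_⟩
  classical
  refine ⟨fun _ => Classical.dec _, ?_⟩
  have h1 : Computable fun p : List ℕ × ℕ => (bif decide (p.1.length = 0) then false
      else decide (f p.1 ≤ p.2) : Bool) := by
    refine Computable.cond ?_ (Computable.const false) ?_
    · exact (Primrec.eq.decide.comp (Primrec.list_length.comp Primrec.fst)
        (Primrec.const 0)).to_comp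
    · exact (Primrec₂.to_comp (Primrec.nat_le.decide)).comp (hf.comp Computable.fst)
        Computable.snd
  refine h1.of_eq fun p => ?_
  obtain ⟨w, k⟩ := p
  by_cases hw : w = []
  · subst hw
    have h2 : ¬ infDefect [] ≤ (k : ℕ∞) := by
      intro h
      have h3 : Ext [] k := by
        rcases ext_of_infDefect_le h with h | h
        · exact h
        · exact h
      obtain ⟨s, hs1, hs2, _⟩ := h3 1
      rcases s with _ | ⟨a, s⟩
      · simp at hs1
      · exact absurd (hs2 a (by simp)) (by simp)
    simp [h2]
  · have h2 : w.length ≠ 0 := by
      intro h
      exact hw (List.length_eq_zero_iff.1 h)
    have h3 := hfw w hw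
    simp [h3, hw]

end Pool.Agent.Results.MP_a1720d_lc.InfiniteDefectComputable
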